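import Pool.Agent.helper75.IQ.Spec

/-!
Row iq:SEC: smooth sections in the interior of a trapped region.
-/

set_option autoImplicit false

namespace Pool.Agent.helper75.IQ

open MeasureTheory Set Topology Filter Manifold ContDiff

lemma SEC_nq_cont : Continuous nq := by
  unfold nq
  fun_prop

lemma SEC_compact (s : ℝ) : IsCompact {q : ℝ × ℝ | nq q ≤ s ^ 2} := by
  apply Metric.isCompact_of_isClosed_isBounded
  · exact isClosed_le SEC_nq_cont continuous_const
  · refine (Metric.isBounded_closedBall (x := (0 : ℝ × ℝ)) (r := |s|)).subset ?_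
    intro q hq
    have hq' : q.1 ^ 2 + q.2 ^ 2 ≤ s ^ 2 := hq
    rw [mem_closedBall_zero_iff, Prod.norm_def, max_le_iff, Real.norm_eq_abs, Real.norm_eq_abs]
    exact ⟨sq_le_sq.1 (by nlinarith [sq_nonneg q.2]), sq_le_sq.1 (by nlinarith [sq_nonneg q.1])⟩

/-- smooth approximation on a disc of a function continuous on a larger disc -/
lemma SEC_approx (r r0 ρ : ℝ) (m : ℝ × ℝ → ℝ) (h0 : 0 < r0) (hr : r0 < r) (hρ : 0 < ρ)
    (hm : ContinuousOn m {q | nq q < r ^ 2}) :
    ∃ m' : ℝ × ℝ → ℝ, ContDiff ℝ 1 m' ∧ ∀ q, nq q ≤ r0 ^ 2 → |m' q - m q| < ρ := by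
  classical
  have hrr : r0 ^ 2 < r ^ 2 := by nlinarith
  obtain ⟨g, hg⟩ := exists_contMDiffMap_forall_mem_convex_of_local_const (n := 1)
    (I := 𝓘(ℝ, ℝ × ℝ)) (M := ℝ × ℝ) (F := ℝ)
    (t := fun q => if nq q ≤ r0 ^ 2 then {y | |y - m q| < ρ} else univ)
    (by
      intro q
      split_ifs
      · have : {y : ℝ | |y - m q| < ρ} = Metric.ball (m q) ρ := by
          ext y
          rw [Metric.mem_ball, Real.dist_eq]
          rfl
        rw [this]
        exact convex_ball _ _
      · exact convex_univ)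
    (by
      intro q
      by_cases hq : nq q < r ^ 2
      · refine ⟨m q, ?_⟩
        have h1 : ContinuousAt m q :=
          hm.continuousAt ((isOpen_lt SEC_nq_cont continuous_const).mem_nhds hq)
        have h2 := Metric.continuousAt_iff.1 h1 ρ hρ
        obtain ⟨δ, hδ, h2⟩ := h2
        filter_upwards [Metric.ball_mem_nhds q hδ] with y hy
        split_ifs
        · have := h2 hy
          rw [Real.dist_eq, abs_sub_comm] at this
          exact this
        · exact mem_univ _
      · refine ⟨0, ?_⟩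
        have h1 : ∀ᶠ y in 𝓝 q, r0 ^ 2 < nq y :=
          (isOpen_lt continuous_const SEC_nq_cont).mem_nhds (by
            show r0 ^ 2 < nq q
            linarith [not_lt.1 hq])
        filter_upwards [h1] with y hy
        rw [if_neg (not_le.2 hy)]
        exact mem_univ _)
  refine ⟨g, ?_, fun q hq => ?_⟩
  · exact g.contMDiff.contDiff
  · have := hg q
    rw [if_pos hq] at this
    exact this

theorem SEC : SEC_stmt := by
  intro κ r m E hT r0 ε h0 hr hε
  have hrr : r0 ^ 2 < r ^ 2 := by nlinarith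
  have hsub : {q : ℝ × ℝ | nq q ≤ r0 ^ 2} ⊆ {q | nq q < r ^ 2} := fun q hq => lt_of_le_of_lt hq hrr
  have hcont : ContinuousOn (fun q : ℝ × ℝ => ((q.1, q.2, m q) : Sp)) {q | nq q ≤ r0 ^ 2} := by
    refine continuous_fst.continuousOn.prodMk (continuous_snd.continuousOn.prodMk ?_)
    exact hT.cm.mono hsub
  obtain ⟨δ, hδ, hth⟩ := ((SEC_compact r0).image_of_continuousOn hcont).exists_thickening_subset_open
    isOpen_interior (by
      rintro _ ⟨q, hq, rfl⟩
      exact hT.sec q (hsub hq))
  obtain ⟨m', hm', happ⟩ := SEC_approx r r0 (min (δ / 3) ε) m h0 hr (lt_min (by linarith) hε) hT.cm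
  refine ⟨min (δ / 3) ε, m', lt_min (by linarith) hε, min_le_right _ _, hm', fun q hq => ?_⟩
  have h1 := happ q hq
  refine ⟨h1.le.trans (min_le_right _ _), fun t ht => hth ?_⟩
  rw [Metric.mem_thickening_iff]
  refine ⟨(q.1, q.2, m q), ⟨q, hq, rfl⟩, ?_⟩
  have h2 : |t - m q| < δ := by
    have h3 := abs_lt.1 h1
    have h4 := min_le_left (δ / 3) ε
    rw [abs_lt]
    constructor
    · linarith [ht.1]
    · linarith [ht.2]
  rw [Prod.dist_eq, Prod.dist_eq]
  simp only [dist_self]
  rw [Real.dist_eq]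
  exact max_lt hδ (max_lt hδ h2)

end Pool.Agent.helper75.IQ
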